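import Pool.Agent.MT100B.Stmts
import Pool.Agent.MT100.Main

/-! Assembly of the main theorem (even weight) from the density theorem, the Hodge theoretic and the
Galois theoretic part. -/

set_option autoImplicit false

namespace Pool.Agent.MT100B.H63

open Matrix Pool.Agent.MT100 Pool.Agent.MT100B Pool.Agent.Helper78_MT

universe u v

/-- an alternating rational matrix as an alternating form on pairs -/
theorem alt_sum {r : ℕ} (Q : Matrix (Fin r) (Fin r) ℚ) (hQ : Qᵀ = -Q) (om om' : Fin r → ℂ) :
    ∑ β : AI r, ((Q β.1.1 β.1.2 : ℚ) : ℂ) * (om β.1.1 * om' β.1.2 - om β.1.2 * om' β.1.1) =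
      om ⬝ᵥ (Q.map (algebraMap ℚ ℂ) *ᵥ om') := by
  have hs : ∀ i j, Q j i = -Q i j := fun i j => by
    have := congrFun (congrFun hQ i) j
    simpa [Matrix.transpose_apply, Matrix.neg_apply] using this
  have hd : ∀ i, Q i i = 0 := fun i => by
    have := hs i i
    linarith
  have h1 : om ⬝ᵥ (Q.map (algebraMap ℚ ℂ) *ᵥ om') =
      ∑ p : Fin r × Fin r, (Q p.1 p.2 : ℂ) * (om p.1 * om' p.2) := by
    rw [Fintype.sum_prod_type]
    simp only [dotProduct, Matrix.mulVec, Matrix.map_apply, Finset.mul_sum, eq_ratCast]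
    apply Finset.sum_congr rfl
    intro i _
    apply Finset.sum_congr rfl
    intro j _
    ring
  rw [h1]
  have h2 : ∑ p : Fin r × Fin r, (Q p.1 p.2 : ℂ) * (om p.1 * om' p.2) =
      ∑ p : Fin r × Fin r with p.1 < p.2,
        (Q p.1 p.2 : ℂ) * (om p.1 * om' p.2 - om p.2 * om' p.1) := by
    rw [← Finset.sum_filter_add_sum_filter_not Finset.univ (fun p : Fin r × Fin r => p.1 < p.2)]
    have h3 : ∑ p : Fin r × Fin r with ¬ p.1 < p.2, (Q p.1 p.2 : ℂ) * (om p.1 * om' p.2) =
        ∑ p : Fin r × Fin r with p.2 < p.1, (Q p.1 p.2 : ℂ) * (om p.1 * om' p.2) := by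
      symm
      apply Finset.sum_subset
      · intro p hp
        simp only [Finset.mem_filter, Finset.mem_univ, true_and, not_lt] at hp ⊢
        exact le_of_lt hp
      · intro p hp hp2
        simp only [Finset.mem_filter, Finset.mem_univ, true_and, not_lt] at hp hp2
        have : p.1 = p.2 := le_antisymm hp2 hp
        rw [this, hd]
        simp
    have h4 : ∑ p : Fin r × Fin r with p.2 < p.1, (Q p.1 p.2 : ℂ) * (om p.1 * om' p.2) =
        ∑ p : Fin r × Fin r with p.1 < p.2, -((Q p.1 p.2 : ℂ) * (om p.2 * om' p.1)) := by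
      apply Finset.sum_nbij' (fun p => (p.2, p.1)) (fun p => (p.2, p.1))
      · intro p hp
        simp only [Finset.mem_filter, Finset.mem_univ, true_and] at hp ⊢
        exact hp
      · intro p hp
        simp only [Finset.mem_filter, Finset.mem_univ, true_and] at hp ⊢
        exact hp
      · intro p _
        rfl
      · intro p _
        rfl
      · intro p _
        rw [hs p.2 p.1]
        push_cast
        ring
    rw [h3, h4, ← Finset.sum_add_distrib]
    apply Finset.sum_congr rfl
    intro p _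
    ring
  rw [h2]
  exact (Finset.sum_subtype (Finset.univ.filter fun p : Fin r × Fin r => p.1 < p.2)
    (fun p => by simp) (fun p : Fin r × Fin r =>
      (Q p.1 p.2 : ℂ) * (om p.1 * om' p.2 - om p.2 * om' p.1))).symm

/-- the Hodge structure and the representations, for a period matrix whose two first rows satisfy no
rational alternating relation -/
theorem core (hH : HodStmt.{u}) (hL : LadStmt.{u, v}) (D : Dat)
    (pe : Fin (ro D) → Fin (ro D) → ℂ)
    (hne : ∀ q : AI (ro D) → ℚ, q ≠ 0 → ∑ β : AI (ro D), (q β : ℂ) *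
      (pe (fz D) β.1.1 * pe (fo D) β.1.2 - pe (fz D) β.1.2 * pe (fo D) β.1.1) ≠ 0)
    (E : Matrix (Fin (ro D)) (Fin (ro D)) ℚ) (V : ℕ → Submodule ℂ (Fin (ro D) → ℂ))
    (hV : PolHodge (2 * D.s) E V)
    (hF : ∀ a : Fin (ro D), (⨆ p ∈ Set.Icc (2 * D.s - a) (2 * D.s), V p) =
      Submodule.span ℂ {y | ∃ b : Fin (ro D), b ≤ a ∧ y = pe b}) :
    (∀ (K : Type u) [Field K] [CharZero K], mtGroup (2 * D.s) V K = similitudes E K) ∧
      ∀ (ℓ : ℕ) [Fact ℓ.Prime] (Γ : Type v) [Group Γ] (ρ : Γ →* GL (Fin (ro D)) ℚ_[ℓ]),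
        BigMonodromy E ρ → ∀ (K : Type u) [Field K] [CharZero K] [Algebra ℚ_[ℓ] K],
          monodromy ρ K = mtGroup (2 * D.s) V K := by
  have h2s := D.two_le
  set w := 2 * D.s with hw
  have hev : Even w := ⟨D.s, by omega⟩
  set om := pe (fz D) with hom
  set om' := pe (fo D) with hom'
  -- the periods are a basis
  have hlast : Submodule.span ℂ (Set.range pe) = ⊤ := by
    have h0 := hF (fl D)
    have h1 : (⨆ p ∈ Set.Icc (w - ((fl D : Fin (ro D)) : ℕ)) w, V p) = ⊤ := by
      have hfl : ((fl D : Fin (ro D)) : ℕ) = w := rfl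
      rw [hfl, Nat.sub_self, eq_top_iff, ← hV.span]
      apply iSup_le
      intro p
      by_cases hp : p ≤ w
      · exact le_iSup₂_of_le p ⟨Nat.zero_le _, hp⟩ le_rfl
      · rw [hV.top p (by omega)]
        exact bot_le
    rw [h1] at h0
    rw [eq_top_iff, h0]
    apply Submodule.span_mono
    rintro y ⟨b, _, rfl⟩
    exact ⟨b, rfl⟩
  have hli : LinearIndependent ℂ pe := by
    apply linearIndependent_of_top_le_span_of_card_eq_finrank
    · rw [hlast]
    · rw [Fintype.card_fin, Module.finrank_fin_fun]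
  have hom0 : om ≠ 0 := hli.ne_zero (fz D)
  -- the first step of the filtration
  have hVw : V w = Submodule.span ℂ {om} := by
    have h0 := hF (fz D)
    have h1 : (⨆ p ∈ Set.Icc (w - ((fz D : Fin (ro D)) : ℕ)) w, V p) = V w := by
      have h3 : Set.Icc (w - ((fz D : Fin (ro D)) : ℕ)) w = {w} := by
        have : ((fz D : Fin (ro D)) : ℕ) = 0 := rfl
        rw [this, Nat.sub_zero]
        exact Set.Icc_self w
      rw [h3]
      simp
    rw [h1] at h0
    rw [h0]
    congr 1
    ext y
    simp only [Set.mem_ofPred_eq, Set.mem_singleton_iff]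
    constructor
    · rintro ⟨b, hb, rfl⟩
      have : b = fz D := by
        apply le_antisymm hb
        exact Nat.zero_le _
      rw [this]
    · rintro rfl
      exact ⟨fz D, le_refl _, rfl⟩
  -- the second step
  have hVw' : V w ⊔ V (w - 1) = Submodule.span ℂ {om, om'} := by
    have h0 := hF (fo D)
    have hfo : ((fo D : Fin (ro D)) : ℕ) = 1 := rfl
    have h1 : (⨆ p ∈ Set.Icc (w - ((fo D : Fin (ro D)) : ℕ)) w, V p) = V w ⊔ V (w - 1) := by
      have h3 : Set.Icc (w - ((fo D : Fin (ro D)) : ℕ)) w = {w, w - 1} := by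
        rw [hfo]
        ext p
        simp only [Set.mem_Icc, Set.mem_insert_iff, Set.mem_singleton_iff]
        omega
      rw [h3, iSup_insert, iSup_singleton]
    rw [h1] at h0
    rw [h0]
    congr 1
    ext y
    simp only [Set.mem_ofPred_eq, Set.mem_insert_iff, Set.mem_singleton_iff]
    constructor
    · rintro ⟨b, hb, rfl⟩
      have hb' : (b : ℕ) ≤ 1 := hb
      rcases Nat.le_one_iff_eq_zero_or_eq_one.mp hb' with h | h
      · left
        have : b = fz D := Fin.ext h
        rw [this]
      · right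
        have : b = fo D := Fin.ext h
        rw [this]
    · rintro (rfl | rfl)
      · exact ⟨fz D, Nat.zero_le _, rfl⟩
      · exact ⟨fo D, le_refl _, rfl⟩
  have hf1 : Module.finrank ℂ (V w) = 1 := by
    rw [hVw]
    exact finrank_span_singleton hom0
  have hne01 : fz D ≠ fo D := by
    intro h
    have h01 : (0 : ℕ) = 1 := congrArg Fin.val h
    exact absurd h01 (by decide)
  have hf2 : Module.finrank ℂ (V (w - 1)) = 1 := by
    have hpair : LinearIndependent ℂ ![om, om'] := by
      have h := hli.comp ![fz D, fo D] (by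
        intro i j hij
        fin_cases i <;> fin_cases j <;> simp_all)
      have he : (pe ∘ ![fz D, fo D]) = ![om, om'] := by
        funext i
        fin_cases i <;> rfl
      rwa [he] at h
    have h2 : Module.finrank ℂ (V w ⊔ V (w - 1) : Submodule ℂ (Fin (ro D) → ℂ)) = 2 := by
      rw [hVw']
      have h3 := finrank_span_eq_card hpair
      rw [Fintype.card_fin] at h3
      have h4 : Set.range ![om, om'] = {om, om'} := by
        simp only [Matrix.range_cons, Matrix.range_empty, Set.union_empty]
        rfl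
      rwa [h4] at h3
    have hdis : V w ⊓ V (w - 1) = ⊥ :=
      disjoint_iff.mp (hV.indep.pairwiseDisjoint (by omega))
    have h5 := Submodule.finrank_sup_add_finrank_inf_eq (V w) (V (w - 1))
    rw [hdis, h2, hf1, finrank_bot] at h5
    omega
  have hquad : ∀ q : Matrix (Fin (ro D)) (Fin (ro D)) ℚ, qᵀ = -q →
      om ⬝ᵥ (q.map (algebraMap ℚ ℂ) *ᵥ om') = 0 → q = 0 := by
    intro q hq h0
    by_contra hc
    apply hne (fun β => q β.1.1 β.1.2)
    · intro hz
      apply hc
      have hlt : ∀ i j : Fin (ro D), i < j → q i j = 0 := fun i j hij =>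
        congrFun hz ⟨(i, j), hij⟩
      have hneg : ∀ i j, q j i = -q i j := fun i j => by
        have := congrFun (congrFun hq i) j
        simpa [Matrix.transpose_apply, Matrix.neg_apply] using this
      ext i j
      rcases lt_trichotomy i j with h | h | h
      · exact hlt i j h
      · subst h
        have := hneg i i
        simp only [Matrix.zero_apply]
        linarith
      · rw [hneg j i, hlt j i h]
        simp
    · rw [← h0]
      exact alt_sum q hq om om'
  have hodd : Odd (Fintype.card (Fin (ro D))) := by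
    rw [Fintype.card_fin]
    exact ⟨D.s, rfl⟩
  have hmt : ∀ (K : Type u) [Field K] [CharZero K], mtGroup w V K = similitudes E K :=
    fun K _ _ => hH (Fin (ro D)) w E V om om' hev (by omega) hodd hV hVw hVw' hf1 hf2 hquad K
  refine ⟨hmt, ?_⟩
  intro ℓ _ Γ _ ρ hρ K _ _ _
  rw [hmt K]
  have hsym : Eᵀ = E := by
    rw [hV.symm, hev.neg_one_pow, one_smul]
  exact hL (Fin (ro D)) E ℚ_[ℓ] Γ ρ hsym hV.nondeg
    (by rw [Fintype.card_fin]; show 2 < 2 * D.s + 1; omega) hodd hρ K

/-- the main theorem, from its three parts -/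
theorem main (hD : DenStmt) (hH : HodStmt.{u}) (hL : LadStmt.{u, v}) : MainStmt.{u, v} := by
  intro D P hP
  refine ⟨{n | Exc D P n}, hD D P hP, ?_⟩
  intro n hn hS E V hV hF
  exact core hH hL D (per D P n) (fun q hq h0 => hS ⟨hn, q, hq, h0⟩) E V hV hF

end Pool.Agent.MT100B.H63
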