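import Pool.Agent.MT100B.StmtsP
import Pool.Agent.Helper63_MT100B.Main

/-! Assembly of the main theorem with a polynomial parameter (even weight). -/

set_option autoImplicit false

namespace Pool.Agent.MT100B.H63

open Matrix Polynomial Pool.Agent.MT100 Pool.Agent.MT100B Pool.Agent.Helper78_MT

universe u v

/-- the main theorem with a polynomial parameter, from its three parts -/
theorem mainP (hD : DepStmt) (hH : HodStmt.{u}) (hL : LadStmt.{u, v}) : MainPStmt.{u, v} := by
  intro D φ hφ
  obtain ⟨n1, hn1⟩ := hD D φ hφ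
  refine ⟨n1, fun P hP => ⟨{n : ℕ | Excx D P (pv φ n)}, (hn1 P hP).2, (hn1 P hP).1, ?_⟩⟩
  intro n hn hS E V hV hF
  exact core hH hL D (perx D P (pv φ n)) (fun q hq h0 => hS ⟨hn, q, hq, h0⟩) E V hV hF

end Pool.Agent.MT100B.H63
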